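import Mathlib
import Pool.Agent.Helper940.GrigIrr

/-! The Grigorchuk group has an infinite-dimensional irreducible representation over a (finite)
field of characteristic two. -/

set_option autoImplicit false
set_option backward.isDefEq.respectTransparency false

namespace Pool.Agent.Results.MP_64b2bf_al.InfDimIrreducible

open Pool.Agent.Helper940 MonoidAlgebra
open scoped MonoidAlgebra

/-- The first Grigorchuk group: the group of permutations of the set of finite binary words
(the vertices of the rooted binary tree) generated by the tree automorphisms `a`, `b`, `c`, `d`. -/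
abbrev Grigorchuk : Subgroup (Equiv.Perm (List Bool)) := GrigIrr.G

/-- The group algebra of the Grigorchuk group. -/
abbrev RR (k : Type) [Field k] : Type := MonoidAlgebra k GrigIrr.G

/-- The quotient of the group algebra by a left ideal, as a vector space. -/
abbrev VV {k : Type} [Field k] (M : Ideal (RR k)) : Type :=
  RestrictScalars k (RR k) (RR k ⧸ M)

/-- The quotient of the group algebra by a left ideal, as a representation. -/
noncomputable abbrev rep {k : Type} [Field k] (M : Ideal (RR k)) :
    Representation k GrigIrr.G (VV M) :=
  Representation.ofModule (k := k) (G := GrigIrr.G) (RR k ⧸ M)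

section

variable {k : Type} [Field k] [CharP k 2]

theorem aug_tt (α β γ δ : k) :
    MonoidAlgebra.lift k k GrigIrr.G (1 : GrigIrr.G →* k) (GrigIrr.tt α β γ δ) = 1 := by
  have two : (2 : k) = 0 := CharP.cast_eq_zero k 2
  simp only [GrigIrr.tt, map_add, MonoidAlgebra.lift_single, MonoidHom.one_apply, smul_eq_mul,
    mul_one]
  linear_combination (α + β + γ + δ) * two

/-- A simple quotient of the group algebra over a finite field of characteristic `2` in which an
element of augmentation `1` vanishes is infinite-dimensional. -/
theorem not_finite [Finite k] (t : RR k)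
    (ht : MonoidAlgebra.lift k k GrigIrr.G (1 : GrigIrr.G →* k) t = 1) (M : Ideal (RR k))
    (hM : M.IsMaximal) (htM : t ∈ M) (hρ : (rep M).IsIrreducible) :
    ¬ FiniteDimensional k (VV M) := by
  intro hfd
  have hfin : Finite (VV M) := Module.finite_of_finite k
  -- the action
  let act : MulAction GrigIrr.G (VV M) :=
    { smul := fun g v => rep M g v
      one_smul := fun v => by show rep M 1 v = v; rw [map_one]; rfl
      mul_smul := fun g h v => by show rep M (g * h) v = rep M g (rep M h v); rw [map_mul]; rfl }
  have hsm : ∀ (g : GrigIrr.G) (v : VV M), g • v = rep M g v := fun _ _ => rfl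
  have hnt : Nontrivial (VV M) := by
    have : Nontrivial (RR k ⧸ M) := Submodule.Quotient.nontrivial_iff.2 hM.ne_top
    exact this
  have h2 : 2 ∣ Nat.card (VV M) := by
    have h3 : Nat.card (VV M) = Nat.card k ^ Module.finrank k (VV M) :=
      Module.natCard_eq_pow_finrank
    have h4 : 2 ∣ Nat.card k := by
      have := Fintype.ofFinite k
      rw [Nat.card_eq_fintype_card]
      exact (CharP.cast_eq_zero_iff k 2 _).1 (FiniteField.cast_card_eq_zero k)
    rw [h3]
    exact dvd_pow h4 (Module.finrank_pos).ne'
  obtain ⟨v, hv, hv0⟩ := GrigIrr.isPGroup.exists_fixed_point_of_prime_dvd_card_of_fixed_point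
    (VV M) h2 (a := (0 : VV M)) (fun g => by rw [hsm, map_zero])
  -- the fixed vectors
  let F : Subrepresentation (rep M) :=
    { toSubmodule :=
        { carrier := {w | ∀ g, rep M g w = w}
          add_mem' := fun {x y} hx hy g => by rw [map_add, hx g, hy g]
          zero_mem' := fun g => map_zero _
          smul_mem' := fun c x hx g => by rw [map_smul, hx g] }
      apply_mem_toSubmodule := fun g w hw g' => by
        have h1 : rep M g w = w := hw g
        show rep M g' (rep M g w) = rep M g w
        rw [h1]
        exact hw g' }
  have hF : F = ⊤ := by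
    rcases hρ.eq_bot_or_eq_top F with h | h
    · exfalso
      have h1 : v ∈ F.toSubmodule := fun g => hv g
      rw [h] at h1
      have h5 : v ∈ (⊥ : Submodule k (VV M)) := h1
      exact hv0 ((Submodule.mem_bot k).1 h5).symm
    · exact h
  have hall : ∀ (w : VV M) (g : GrigIrr.G), rep M g w = w := by
    intro w
    have h1 : w ∈ (⊤ : Submodule k (VV M)) := trivial
    have h5 : w ∈ F.toSubmodule := by rw [hF]; exact h1
    exact h5
  -- the group algebra acts through the augmentation
  have haug : ∀ (x : RR k) (w : VV M), (rep M).asAlgebraHom x w =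
      (MonoidAlgebra.lift k k GrigIrr.G (1 : GrigIrr.G →* k) x) • w := by
    intro x w
    induction x using MonoidAlgebra.induction_linear with
    | zero => rw [map_zero, map_zero, zero_smul, LinearMap.zero_apply]
    | add x y hx hy => rw [map_add, LinearMap.add_apply, hx, hy, map_add, add_smul]
    | single g c =>
      rw [Representation.asAlgebraHom_single, MonoidAlgebra.lift_single, LinearMap.smul_apply, hall]
      simp
  let e : VV M := (RestrictScalars.addEquiv k (RR k) (RR k ⧸ M)).symm
    (Submodule.Quotient.mk (1 : RR k))
  have he : e ≠ 0 := by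
    intro h
    have h1 : (Submodule.Quotient.mk (1 : RR k) : RR k ⧸ M) = 0 := by
      have := congrArg (RestrictScalars.addEquiv k (RR k) (RR k ⧸ M)) h
      simpa [e] using this
    rw [Submodule.Quotient.mk_eq_zero] at h1
    exact hM.ne_top ((Ideal.eq_top_iff_one M).2 h1)
  have h1 : (rep M).asAlgebraHom t e = e := by
    rw [haug t, ht, one_smul]
  have h2' : (rep M).asAlgebraHom t e = 0 := by
    have h3 := Representation.ofModule_asAlgebraHom_apply_apply (k := k) (G := GrigIrr.G)
      (M := RR k ⧸ M) t e
    have h4 : t • (Submodule.Quotient.mk (1 : RR k) : RR k ⧸ M) = 0 := by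
      rw [← Submodule.Quotient.mk_smul, Submodule.Quotient.mk_eq_zero]
      show t * 1 ∈ M
      rw [mul_one]
      exact htM
    refine h3.trans ?_
    simp only [e]
    rw [AddEquiv.apply_symm_apply, h4, map_zero]
  exact he (h1.symm.trans h2')

/-- Key step over a finite field. -/
theorem exists_irr [Finite k] (t : RR k)
    (ht : MonoidAlgebra.lift k k GrigIrr.G (1 : GrigIrr.G →* k) t = 1) (hinv : ∀ y, y * t ≠ 1) :
    ∃ (V : Type) (_ : AddCommGroup V) (_ : Module k V) (ρ : Representation k GrigIrr.G V),
      ρ.IsIrreducible ∧ ¬ FiniteDimensional k V := by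
  let I : Ideal (RR k) := Ideal.span {t}
  have hI : I ≠ ⊤ := by
    intro h
    have h1 : (1 : RR k) ∈ I := by rw [h]; trivial
    obtain ⟨y, hy⟩ := Submodule.mem_span_singleton.1 h1
    exact hinv y hy
  obtain ⟨M, hM, hle⟩ := Ideal.exists_le_maximal I hI
  have hsimple : IsSimpleModule (RR k) (RR k ⧸ M) := isSimpleModule_iff_isCoatom.2 hM.out
  have hρ : (rep M).IsIrreducible :=
    (Representation.isSimpleModule_iff_irreducible_ofModule (k := k) (G := GrigIrr.G)
      (RR k ⧸ M)).1 hsimple
  exact ⟨VV M, inferInstance, inferInstance, rep M, hρ,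
    not_finite t ht M hM (hle (Ideal.subset_span rfl)) hρ⟩

end

/-- There are a field `k` of characteristic `2` and an irreducible representation of the
Grigorchuk group over `k` that is infinite-dimensional. -/
theorem result : ∃ (k : Type) (_ : Field k) (_ : CharP k 2) (V : Type) (_ : AddCommGroup V)
    (_ : Module k V) (ρ : Representation k Grigorchuk V),
    ρ.IsIrreducible ∧ ¬ FiniteDimensional k V := by
  have hprime : Fact (Nat.Prime 2) := ⟨Nat.prime_two⟩
  have hfin : Finite (GaloisField 2 2) := inferInstance
  have hcard : Nat.card (GaloisField 2 2) = 4 := by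
    rw [GaloisField.card 2 2 (by norm_num)]; norm_num
  obtain ⟨x, hx0, hx1⟩ : ∃ x : GaloisField 2 2, x ≠ 0 ∧ x ≠ 1 := by
    by_contra hcon
    push Not at hcon
    have : Nat.card (GaloisField 2 2) ≤ 2 := by
      have h1 : Function.Surjective (fun b : Bool => if b then (1 : GaloisField 2 2) else 0) := by
        intro y
        by_cases hy : y = 0
        · exact ⟨false, by simp [hy]⟩
        · exact ⟨true, by simp [hcon y hy]⟩
      simpa using Nat.card_le_card_of_surjective _ h1
    omega
  refine ⟨GaloisField 2 2, inferInstance, inferInstance,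
    exists_irr (GrigIrr.tt (1 : GaloisField 2 2) 0 1 x) (aug_tt _ _ _ _)
      (GrigIrr.not_left_inv 1 0 1 x one_ne_zero ?_ ?_ ?_)⟩
  · simp
  · simpa using hx0
  · intro h
    apply hx1
    have two : (2 : GaloisField 2 2) = 0 := CharP.cast_eq_zero _ 2
    linear_combination h - two
end Pool.Agent.Results.MP_64b2bf_al.InfDimIrreducible
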